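import Pool.Agent.H27.Skew4

set_option autoImplicit false

namespace Pool.Agent.Results.MP_669787_al.Cex

open Pool.Agent.H27.Skew

theorem result : ∃ (A R : Type) (_ : Ring A) (_ : Ring R) (φ : RingAut A) (c : R →+ (ℤ → A)),
    IsSkewLaurent φ c ∧ IsSemisimpleRing (R ⧸ Ring.jacobson R) ∧
      ∃ a ∈ Ring.jacobson A, ¬ IsNilpotent a := by
  obtain ⟨R, _, c, h⟩ := exists_SL sh
  exact ⟨AA, R, _, _, sh, c, h, h.semiloc, notnil⟩

end Pool.Agent.Results.MP_669787_al.Cex
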